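import Pool.Agent.Helper80.HY.CutH
import Pool.Agent.Helper65.TH.Families

/-!
Asymptotic property C for unions of groups which embed coarsely into hyperbolic spaces, of virtual free
products, of towers of commensurated or rooted subgroups, and of groups which are cut in their overgroups.
-/

set_option autoImplicit false

namespace Pool.Agent.Results.MP_2c6f0d_gt.HyperbolicUnions

open Pool.Agent.Helper65.TH Pool.Agent.Helper65.GN Pool.Agent.Helper65.FP Pool.Agent.Helper80.HY
open Pool.Agent.Helper75.Apc (HasFamilies)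

/-- Let `G` be a group with a proper left-invariant metric. Suppose that (a) every finite subset of
`G` lies in a subgroup which embeds coarsely into the hyperbolic space of some dimension `d + 1`, or
(b) `G` is the union of subgroups `H 0 ≤ H 1 ≤ ...` each of which has a finite-index subgroup which is
the free product of finitely many finitely generated groups of polynomial growth, or (c) `G` is the
union of subgroups `H 0 ≤ H 1 ≤ ...` of finite asymptotic dimension such that every `H n` is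
commensurated by `H (n + 1)` or rooted in it, or more generally (d) every finite subset of `G` lies
in a subgroup `L` with `CutH n ⊤ L` for some `n`. Then `G` has asymptotic property C, and the number
of families needed for a sequence `R` depends only on its first member `R 0`. -/
theorem result {G : Type*} [Group G] [MetricSpace G]
    (hinv : ∀ a b c : G, dist (a * b) (a * c) = dist b c)
    (hprop : ∀ r : ℝ, (Metric.closedBall (1 : G) r).Finite)
    (h : (∀ T : Finset G, ∃ (L : Subgroup G) (d : ℕ), (∀ s ∈ T, s ∈ L) ∧ HypEmb L d) ∨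
      (∃ H : ℕ → Subgroup G, (∀ n, H n ≤ H (n + 1)) ∧ (∀ g : G, ∃ n, g ∈ H n) ∧
        ∀ n, VirtFree (H n)) ∨
      (∃ H : ℕ → Subgroup G, (∀ n, H n ≤ H (n + 1)) ∧ (∀ g : G, ∃ n, g ∈ H n) ∧
        (∀ n, Commensurated (H n) (H (n + 1)) ∨ Rooted (H n) (H (n + 1))) ∧
        ∀ n, ∃ t : ℕ, AsdimLT (H n) t) ∨
      ∀ T : Finset G, ∃ (n : ℕ) (L : Subgroup G), (∀ s ∈ T, s ∈ L) ∧ CutH n ⊤ L) :
    ∃ n : ℝ → ℕ, ∀ R : ℕ → ℝ, (∀ i, 0 < R i) → Monotone R → HasFamilies G R (n (R 0)) := by
  have hN : ∀ T : Finset G, ∃ (n : ℕ) (L : Subgroup G), (∀ s ∈ T, s ∈ L) ∧ CutH n ⊤ L := by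
    have h2 : Nice2 (⊤ : Subgroup G) → ∀ T : Finset G, ∃ (n : ℕ) (L : Subgroup G),
        (∀ s ∈ T, s ∈ L) ∧ CutH n ⊤ L := by
      intro hn T
      obtain ⟨n, L, h3, _, h4⟩ := hn T (fun s _ => Subgroup.mem_top s)
      exact ⟨n, L, h3, cutH_of_cut h4⟩
    rcases h with h | ⟨H, hle, hun, hv⟩ | ⟨H, hle, hun, hs, has⟩ | h
    · intro T
      obtain ⟨L, d, h3, h4⟩ := h T
      exact ⟨_, L, h3, CutH.hyp L d h4⟩
    · exact h2 (nice2_of_virtFree H hle hun hv)
    · exact h2 (nice2_of_tower H hle hs hun has)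
    · exact h
  have hcore : ∀ T : Finset G, (∀ s ∈ T, s⁻¹ ∈ T) → ∃ n : ℕ, ∀ S : Finset G, T ⊆ S →
      (∀ s ∈ S, s⁻¹ ∈ S) → ∃ (A : ℕ → Set G) (E : Finset G), (∀ x, ∃ j < n, x ∈ A j) ∧
      (∀ x ∈ A 0, ∀ y, Chain (T : Set G) (fun b => b ∈ A 0) x y → x⁻¹ * y ∈ E) ∧
      ∀ j, 1 ≤ j → j < n → ∀ x ∈ A j, ∀ y,
        Chain (S : Set G) (fun b => b ∈ A j) x y → x⁻¹ * y ∈ E := by
    intro T _
    obtain ⟨n, L, hTL, hcut⟩ := hN T
    refine ⟨n + 1, fun S _ _ => ?_⟩
    obtain ⟨w, E, hw, h0, hj⟩ := hcut.sep T S hTL (fun s _ => Subgroup.mem_top s)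
    exact ⟨fun j => {x | w x = j}, E, fun x => ⟨w x, Nat.lt_succ_of_le (hw x), rfl⟩, h0,
      fun j hj1 _ => hj j hj1⟩
  choose n hn using fun r : ℝ => hasFamilies_of_core hinv hprop hcore r
  exact ⟨n, fun R hR hmono => hn (R 0) R hR hmono le_rfl⟩

end Pool.Agent.Results.MP_2c6f0d_gt.HyperbolicUnions
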